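import Pool.Agent.TH492.Norin

/-!
# Strong colouring numbers versus shallow bramble number

On every class with polynomial expansion, `scol_r(G) ≤ f(r, bn_r(G))` for a polynomial `f`.
-/

set_option autoImplicit false

namespace Pool.Agent.Results.MP_9d6589_co.ScolBramble

open Pool.Agent.TH492.Col

/-- `B` is a connected vertex set such that `G[B]` has radius at most `r` -/
def RadiusLE {n : ℕ} (r : ℕ) (G : SimpleGraph (Fin n)) (B : Set (Fin n)) : Prop :=
  ∃ x ∈ B, ∀ y ∈ B, ∃ p : G.Walk x y, p.length ≤ r ∧ ∀ w ∈ p.support, w ∈ B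

/-- two vertex sets touch if they share a vertex or are joined by an edge -/
def Touch {n : ℕ} (G : SimpleGraph (Fin n)) (A B : Set (Fin n)) : Prop :=
  (A ∩ B).Nonempty ∨ ∃ a ∈ A, ∃ b ∈ B, G.Adj a b

/-- a depth-`r` bramble -/
def IsDepthBramble {n : ℕ} (r : ℕ) (G : SimpleGraph (Fin n)) (F : Set (Set (Fin n))) : Prop :=
  (∀ B ∈ F, RadiusLE r G B) ∧ ∀ A ∈ F, ∀ B ∈ F, Touch G A B

/-- the order of a bramble: the least size of a vertex set meeting every member -/
noncomputable def order {n : ℕ} (F : Set (Set (Fin n))) : ℕ :=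
  sInf {k | ∃ X : Finset (Fin n), X.card = k ∧ ∀ B ∈ F, ∃ x ∈ X, x ∈ B}

/-- the largest order of a depth-`r` bramble of `G` -/
noncomputable def bn {n : ℕ} (r : ℕ) (G : SimpleGraph (Fin n)) : ℕ :=
  sSup {k | ∃ F : Set (Set (Fin n)), IsDepthBramble r G F ∧ order F = k}

/-- the supremum in the definition of `bn` is over a nonempty set bounded by `n` -/
theorem bn_spec {n : ℕ} (r : ℕ) (G : SimpleGraph (Fin n)) :
    (∃ F : Set (Set (Fin n)), IsDepthBramble r G F ∧ order F = bn r G) ∧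
    ∀ F : Set (Set (Fin n)), IsDepthBramble r G F → order F ≤ bn r G := by
  have hb : BddAbove {k | ∃ F : Set (Set (Fin n)), IsDepthBramble r G F ∧ order F = k} := by
    refine ⟨n, ?_⟩
    rintro k ⟨F, hF, rfl⟩
    apply Nat.sInf_le
    refine ⟨Finset.univ, by simp, fun B hB => ?_⟩
    obtain ⟨x, hx, -⟩ := hF.1 B hB
    exact ⟨x, Finset.mem_univ _, hx⟩
  have hne : {k | ∃ F : Set (Set (Fin n)), IsDepthBramble r G F ∧ order F = k}.Nonempty :=
    ⟨_, ∅, ⟨by simp, by simp⟩, rfl⟩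
  refine ⟨?_, fun F hF => le_csSup hb ⟨F, hF, rfl⟩⟩
  exact Nat.sSup_mem hne hb

theorem strong_zero {n : ℕ} (G : SimpleGraph (Fin n)) (σ : Equiv.Perm (Fin n)) (u : Fin n) :
    (Strong G σ 0 u).ncard ≤ 1 := by
  have h : Strong G σ 0 u ⊆ {u} := by
    rintro v ⟨-, p, -, hp, -⟩
    have : p.length = 0 := by omega
    exact (SimpleGraph.Walk.eq_of_length_eq_zero this).symm
  calc (Strong G σ 0 u).ncard ≤ ({u} : Set (Fin n)).ncard :=
        Set.ncard_le_ncard h (Set.finite_singleton _)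
    _ = 1 := Set.ncard_singleton _

/-- For every class `C` of finite graphs with polynomial expansion there is a polynomial `f` in two
variables with `scol_r(G) ≤ f(r, bn_r(G))` for all `r ≥ 0` and all `G` in `C`. Moreover each graph of
the class has one linear order witnessing these bounds for all `r` simultaneously. -/
theorem result (C : (n : ℕ) → SimpleGraph (Fin n) → Prop) (hC : PolyExpansion C) :
    ∃ f : MvPolynomial (Fin 2) ℝ, ∀ (n : ℕ) (G : SimpleGraph (Fin n)), C n G →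
      (∀ r : ℕ, (col r G : ℝ) ≤ MvPolynomial.eval ![(r : ℝ), (bn r G : ℝ)] f) ∧
      ∃ σ : Equiv.Perm (Fin n), ∀ (r : ℕ) (u : Fin n),
        ((Strong G σ r u).ncard : ℝ) ≤ MvPolynomial.eval ![(r : ℝ), (bn r G : ℝ)] f := by
  obtain ⟨c, K, h⟩ := uniform_of_polyExp hC
  obtain ⟨a, k, hak⟩ := rpow_bound c K
  refine ⟨MvPolynomial.C ((a : ℝ) + 1) * (MvPolynomial.X 0 + 1) ^ k, fun n G hG => ?_⟩
  obtain ⟨σ, hσ⟩ := h n G hG
  have ev : ∀ r : ℕ, MvPolynomial.eval ![(r : ℝ), (bn r G : ℝ)]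
      (MvPolynomial.C ((a : ℝ) + 1) * (MvPolynomial.X 0 + 1) ^ k) =
        ((a : ℝ) + 1) * ((r : ℝ) + 1) ^ k := by
    intro r
    simp
  have key : ∀ (r : ℕ) (u : Fin n), ((Strong G σ r u).ncard : ℝ) ≤
      ((a : ℝ) + 1) * ((r : ℝ) + 1) ^ k := by
    intro r u
    rcases Nat.eq_zero_or_pos r with rfl | hr
    · have h1 := strong_zero G σ u
      have h2 : ((Strong G σ 0 u).ncard : ℝ) ≤ 1 := by exact_mod_cast h1
      have h3 : (0 : ℝ) ≤ (a : ℝ) := Nat.cast_nonneg _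
      simp only [Nat.cast_zero, zero_add, one_pow, mul_one]
      linarith
    · have h1 := hσ r hr u
      have h2 := hak r hr
      have h3 : (a : ℝ) * (r : ℝ) ^ k ≤ ((a : ℝ) + 1) * ((r : ℝ) + 1) ^ k := by
        have h4 : (r : ℝ) ^ k ≤ ((r : ℝ) + 1) ^ k :=
          pow_le_pow_left₀ (Nat.cast_nonneg _) (by linarith) _
        have h5 : (0 : ℝ) ≤ (r : ℝ) ^ k := by positivity
        have h6 : (0 : ℝ) ≤ (a : ℝ) := Nat.cast_nonneg _
        nlinarith
      linarith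
  refine ⟨fun r => ?_, σ, fun r u => ?_⟩
  · rw [ev]
    have h1 : col r G ≤ ⌊((a : ℝ) + 1) * ((r : ℝ) + 1) ^ k⌋₊ :=
      Nat.sInf_le ⟨σ, fun u => Nat.le_floor (key r u)⟩
    have h2 : (0 : ℝ) ≤ ((a : ℝ) + 1) * ((r : ℝ) + 1) ^ k := by positivity
    calc (col r G : ℝ) ≤ (⌊((a : ℝ) + 1) * ((r : ℝ) + 1) ^ k⌋₊ : ℝ) := by exact_mod_cast h1
      _ ≤ _ := Nat.floor_le h2
  · rw [ev]
    exact key r u

end Pool.Agent.Results.MP_9d6589_co.ScolBramble
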